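import Pool.Agent.N179.TL.Defs

/-!
# Weil numbers with independent slopes: definitions
-/

set_option autoImplicit false

namespace Pool.Agent.Helper17.SL

open Polynomial Pool.Agent.N179.TL

section

variable {K : Type} [Field K] [CharZero K]

/-- The number `x` is algebraic, and all its complex conjugates have the absolute value `q ^ (w / 2)`,
`q = p ^ m`. -/
def HasWeight (p m : ℕ) (w : ℤ) (x : K) : Prop :=
  IsAlgebraic ℚ x ∧
    ∀ z : ℂ, aeval z (minpoly ℚ x) = 0 → ‖z‖ ^ 2 = ((p : ℝ) ^ m) ^ w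

/-- The slope of `y` (the valuation, normalised by `slope q = 1`, `q = p ^ m`) is `w / 2 + c` with
`(w mod 2, c)` in `D`. -/
def SlopeIn (p m : ℕ) [Fact p.Prime] (D : Set (ZMod 2 × ℚ)) (w : ℤ) (y : PadicAlgCl p) : Prop :=
  ∃ c : ℚ, ((w : ZMod 2), c) ∈ D ∧ slope p m y = (w : ℝ) / 2 + (c : ℝ)

/-- `x` is a Weil number of some weight `w`, and the slopes of all its `p`-adic conjugates are of the
form `w / 2 + c` with `(w mod 2, c)` in `D`. -/
def SlopesIn (p m : ℕ) [Fact p.Prime] (D : Set (ZMod 2 × ℚ)) (x : K) : Prop :=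
  ∃ w : ℤ, HasWeight p m w x ∧
    ∀ y : PadicAlgCl p, aeval y (minpoly ℚ x) = 0 → SlopeIn p m D w y

/-- `x` is a Weil number of some weight `w`, the slopes of all its `p`-adic conjugates are of the
form `w / 2 + c` with `(w mod 2, c)` in `D`, and at least one slope is of this form with
`(w mod 2, c)` in `B`. -/
def SlopesMeet (p m : ℕ) [Fact p.Prime] (D B : Set (ZMod 2 × ℚ)) (x : K) : Prop :=
  ∃ w : ℤ, HasWeight p m w x ∧
    (∀ y : PadicAlgCl p, aeval y (minpoly ℚ x) = 0 → SlopeIn p m D w y) ∧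
    ∃ y : PadicAlgCl p, aeval y (minpoly ℚ x) = 0 ∧ SlopeIn p m B w y

end

/-- The sets `D i` and `D₀` are independent, relative to the sets `B i`: if `d i ∈ D i`, for `i` in a
set `I` of indices, and `d₀ ∈ D₀` have the sum zero, then no `d i` is in `B i`. -/
def Independent {r : ℕ} (D B : Fin r → Set (ZMod 2 × ℚ)) (D₀ : Set (ZMod 2 × ℚ)) : Prop :=
  ∀ (I : Finset (Fin r)) (d : Fin r → ZMod 2 × ℚ) (d₀ : ZMod 2 × ℚ), (∀ i ∈ I, d i ∈ D i) →
    d₀ ∈ D₀ → ∑ i ∈ I, d i + d₀ = 0 → ∀ i ∈ I, d i ∉ B i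

end Pool.Agent.Helper17.SL
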