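import Pool.Agent.N179.TL.Ar
import Pool.Agent.N876.FL.NR
import Pool.Agent.Helper17.SL.Defs

/-!
# Weil numbers with independent slopes have no resonances
-/

set_option autoImplicit false

namespace Pool.Agent.Helper17.SL

open Polynomial Pool.Agent.N179.TL

section

variable {p : ℕ} [Fact p.Prime] {K : Type} [Field K] [CharZero K]

theorem prod_zpow_sum {q : ℝ} (hq : q ≠ 0) {ι : Type} (s : Finset ι) (w : ι → ℤ) :
    ∏ i ∈ s, q ^ (w i) = q ^ (∑ i ∈ s, w i) := by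
  classical
  induction s using Finset.induction_on with
  | empty => simp
  | insert a s ha ih =>
    rw [Finset.prod_insert ha, Finset.sum_insert ha, ih, zpow_add₀ hq]

theorem slope_prod {m : ℕ} {ι : Type} (s : Finset ι) (f : ι → PadicAlgCl p)
    (hf : ∀ i ∈ s, f i ≠ 0) : N179.TL.slope p m (∏ i ∈ s, f i) = ∑ i ∈ s, N179.TL.slope p m (f i) := by
  classical
  induction s using Finset.induction_on with
  | empty => simp [N179.TL.slope]
  | insert a s ha ih =>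
    rw [Finset.prod_insert ha, Finset.sum_insert ha, ← ih fun i hi => hf i (Finset.mem_insert_of_mem hi)]
    unfold N179.TL.slope
    rw [norm_mul, Real.logb_mul]
    · ring
    · exact norm_ne_zero_iff.2 (hf a (Finset.mem_insert_self a s))
    · exact norm_ne_zero_iff.2 (Finset.prod_ne_zero_iff.2 fun i hi =>
        hf i (Finset.mem_insert_of_mem hi))

theorem slope_mul {m : ℕ} {x y : PadicAlgCl p} (hx : x ≠ 0) (hy : y ≠ 0) :
    N179.TL.slope p m (x * y) = N179.TL.slope p m x + N179.TL.slope p m y := by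
  unfold N179.TL.slope
  rw [norm_mul, Real.logb_mul (norm_ne_zero_iff.2 hx) (norm_ne_zero_iff.2 hy)]
  ring

theorem slope_pow {m : ℕ} (x : PadicAlgCl p) (n : ℕ) :
    N179.TL.slope p m (x ^ n) = n * N179.TL.slope p m x := by
  unfold N179.TL.slope
  rw [norm_pow, Real.logb_pow]
  ring

theorem slope_q {m : ℕ} (hm : 0 < m) : N179.TL.slope p m ((p : PadicAlgCl p) ^ m) = 1 := by
  have hp1 : (1 : ℝ) < p := by exact_mod_cast (Fact.out : p.Prime).one_lt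
  unfold N179.TL.slope
  rw [norm_pow, norm_p, inv_pow, Real.logb_inv, neg_neg]
  exact Real.logb_self_eq_one (one_lt_pow₀ hp1 hm.ne')

theorem slope_qn {m : ℕ} (hm : 0 < m) (n : ℕ) :
    N179.TL.slope p m (((p : PadicAlgCl p) ^ m) ^ n) = n := by
  rw [slope_pow, slope_q hm, mul_one]

theorem nores [IsAlgClosed K] {m : ℕ} (hm : 0 < m) {r : ℕ} {D B : Fin r → Set (ZMod 2 × ℚ)}
    {D₀ : Set (ZMod 2 × ℚ)} (hD : Independent D B D₀) {S : Fin r → Set K}
    (hS : ∀ i, ∀ μ ∈ S i, SlopesMeet p m (D i) (B i) μ) {SZ : Set K}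
    (hSZ : ∀ β ∈ SZ, SlopesIn p m D₀ β) :
    Pool.Agent.N876.FL.NoResF (((p : ℕ) : K) ^ m) S SZ := by
  classical
  intro I hI μ hμ β hβ e M w₀ hM heq
  have hp1 : (1 : ℝ) < p := by exact_mod_cast (Fact.out : p.Prime).one_lt
  have hq1 : (1 : ℝ) < (p : ℝ) ^ m := one_lt_pow₀ hp1 hm.ne'
  have hpK : ((p : ℕ) : K) ≠ 0 := by exact_mod_cast (Fact.out : p.Prime).ne_zero
  -- everything is nonzero
  have hne : (∏ i ∈ I, μ i) * (((p : ℕ) : K) ^ m) ^ e * β ≠ 0 := by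
    intro h0
    rw [h0, zero_pow hM.ne'] at heq
    exact pow_ne_zero _ (pow_ne_zero _ hpK) heq.symm
  have hβ0 : β ≠ 0 := right_ne_zero_of_mul hne
  have hμ0 : ∀ i ∈ I, μ i ≠ 0 := by
    have h1 := left_ne_zero_of_mul (left_ne_zero_of_mul hne)
    exact Finset.prod_ne_zero_iff.1 h1
  -- choose the weights
  have hch : ∀ i, ∃ w : ℤ, i ∈ I → HasWeight p m w (μ i) ∧
      (∀ y : PadicAlgCl p, aeval y (minpoly ℚ (μ i)) = 0 → SlopeIn p m (D i) w y) ∧
      ∃ y : PadicAlgCl p, aeval y (minpoly ℚ (μ i)) = 0 ∧ SlopeIn p m (B i) w y := by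
    intro i
    by_cases hi : i ∈ I
    · obtain ⟨w, h⟩ := hS i _ (hμ i hi)
      exact ⟨w, fun _ => h⟩
    · exact ⟨0, fun h => absurd h hi⟩
  choose w hw using hch
  obtain ⟨wβ, hwβ, hdβ⟩ := hSZ β hβ
  obtain ⟨i₀, hi₀⟩ := hI
  obtain ⟨-, -, y, hy, c', hc', hys⟩ := hw i₀ hi₀
  -- the field of algebraic numbers in `K`
  let L : IntermediateField ℚ K := algebraicClosure ℚ K
  have hLa : ∀ x : K, IsAlgebraic ℚ x → x ∈ L := fun x hx => by
    rw [mem_algebraicClosure_iff]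
    exact hx
  have hμL : ∀ i, ∃ x : L, i ∈ I → (x : K) = μ i := by
    intro i
    by_cases hi : i ∈ I
    · exact ⟨⟨μ i, hLa _ (hw i hi).1.1⟩, fun _ => rfl⟩
    · exact ⟨0, fun h => absurd h hi⟩
  choose x hx using hμL
  let b : L := ⟨β, hLa _ hwβ.1⟩
  have hbβ : (b : K) = β := rfl
  have halg : Algebra.IsAlgebraic ℚ L := algebraicClosure.isAlgebraic ℚ K
  have hrel : ((∏ i ∈ I, x i) * (((p : ℕ) : L) ^ m) ^ e * b) ^ M =
      (((p : ℕ) : L) ^ m) ^ (M * w₀) := by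
    apply Subtype.coe_injective
    have h1 : ((∏ i ∈ I, x i : L) : K) = ∏ i ∈ I, μ i := by
      rw [← IntermediateField.coe_val, map_prod]
      exact Finset.prod_congr rfl fun i hi => hx i hi
    push_cast
    push_cast at h1
    rw [h1, hbβ]
    exact heq
  have hmin : ∀ i ∈ I, minpoly ℚ (x i) = minpoly ℚ (μ i) := by
    intro i hi
    have h1 : minpoly ℚ ((x i : L) : K) = minpoly ℚ (x i) :=
      minpoly.algebraMap_eq (B' := K) (algebraMap L K).injective (x i)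
    rw [← h1, hx i hi]
  have hminb : minpoly ℚ b = minpoly ℚ β :=
    (minpoly.algebraMap_eq (B' := K) (algebraMap L K).injective b).symm
  have hx0 : ∀ i ∈ I, x i ≠ 0 := by
    intro i hi h0
    apply hμ0 i hi
    rw [← hx i hi, h0]
    rfl
  have hb0 : b ≠ 0 := by
    intro h0
    apply hβ0
    rw [← hbβ, h0]
    rfl
  -- the complex embedding: the weights
  have hcomp : ∑ i ∈ I, w i + 2 * (e : ℤ) + wβ = 2 * (w₀ : ℤ) := by
    obtain ⟨φ⟩ : Nonempty (L →ₐ[ℚ] ℂ) := ⟨IsAlgClosed.lift⟩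
    have h1 := congrArg (fun z => ‖φ z‖ ^ 2) hrel
    simp only [map_pow, map_mul, map_prod, map_natCast, norm_pow, norm_mul, Complex.norm_natCast,
      norm_prod] at h1
    have h2 : ∀ i ∈ I, ‖φ (x i)‖ ^ 2 = ((p : ℝ) ^ m) ^ (w i) := by
      intro i hi
      refine (hw i hi).1.2 _ ?_
      rw [← hmin i hi, Polynomial.aeval_algHom_apply, minpoly.aeval, map_zero]
    have h3 : ‖φ b‖ ^ 2 = ((p : ℝ) ^ m) ^ wβ := by
      refine hwβ.2 _ ?_
      rw [← hminb, Polynomial.aeval_algHom_apply, minpoly.aeval, map_zero]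
    have h4 : (((∏ i ∈ I, ‖φ (x i)‖ ^ 2) * (((p : ℝ) ^ m) ^ 2) ^ e * ‖φ b‖ ^ 2)) ^ M =
        ((((p : ℝ) ^ m) ^ 2) ^ w₀) ^ M := by
      rw [Finset.prod_pow]
      calc _ = (((∏ i ∈ I, ‖φ (x i)‖) * ((p : ℝ) ^ m) ^ e * ‖φ b‖) ^ M) ^ 2 := by ring
        _ = _ := by rw [h1]; ring
    rw [Finset.prod_congr rfl h2, h3] at h4
    have hq0 : (p : ℝ) ^ m ≠ 0 := (lt_trans one_pos hq1).ne'
    rw [prod_zpow_sum hq0] at h4
    have h5 : ((p : ℝ) ^ m) ^ ((∑ i ∈ I, w i + 2 * (e : ℤ) + wβ) * (M : ℤ)) =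
        ((p : ℝ) ^ m) ^ (2 * (w₀ : ℤ) * (M : ℤ)) := by
      rw [zpow_mul, zpow_mul, zpow_natCast, zpow_natCast, zpow_add₀ hq0, zpow_add₀ hq0]
      rw [show ((p : ℝ) ^ m) ^ (2 * (e : ℤ)) = (((p : ℝ) ^ m) ^ 2) ^ e by
        rw [zpow_mul, zpow_natCast]; rfl]
      rw [show ((p : ℝ) ^ m) ^ (2 * (w₀ : ℤ)) = (((p : ℝ) ^ m) ^ 2) ^ w₀ by
        rw [zpow_mul, zpow_natCast]; rfl]
      exact h4
    have h6 := zpow_right_injective₀ (lt_trans one_pos hq1) hq1.ne' h5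
    have h7 : (M : ℤ) ≠ 0 := by exact_mod_cast hM.ne'
    exact mul_right_cancel₀ h7 h6
  -- the p-adic embedding: the slopes
  have hy' : aeval y (minpoly ℚ (x i₀)) = 0 := by rw [hmin i₀ hi₀]; exact hy
  obtain ⟨ψ, hψ⟩ : ∃ ψ : L →ₐ[ℚ] PadicAlgCl p, ψ (x i₀) = y :=
    IntermediateField.exists_algHom_of_splits_of_aeval
      (fun s => ⟨Algebra.IsIntegral.isIntegral s, IsAlgClosed.splits _⟩) hy'
  have hs : ∀ i ∈ I, ∃ c : ℚ, ((w i : ZMod 2), c) ∈ D i ∧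
      N179.TL.slope p m (ψ (x i)) = (w i : ℝ) / 2 + (c : ℝ) := by
    intro i hi
    refine (hw i hi).2.1 _ ?_
    rw [← hmin i hi, Polynomial.aeval_algHom_apply, minpoly.aeval, map_zero]
  obtain ⟨cβ, hcβ, hsβ⟩ : ∃ c : ℚ, ((wβ : ZMod 2), c) ∈ D₀ ∧
      N179.TL.slope p m (ψ b) = (wβ : ℝ) / 2 + (c : ℝ) := by
    refine hdβ _ ?_
    rw [← hminb, Polynomial.aeval_algHom_apply, minpoly.aeval, map_zero]
  have hs' : ∀ i, ∃ c : ℚ, i ∈ I → ((w i : ZMod 2), c) ∈ D i ∧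
      N179.TL.slope p m (ψ (x i)) = (w i : ℝ) / 2 + (c : ℝ) := by
    intro i
    by_cases hi : i ∈ I
    · obtain ⟨c, h⟩ := hs i hi
      exact ⟨c, fun _ => h⟩
    · exact ⟨0, fun h => absurd h hi⟩
  choose c hc using hs'
  have hsum : ∑ i ∈ I, N179.TL.slope p m (ψ (x i)) + (e : ℝ) + N179.TL.slope p m (ψ b) =
      (w₀ : ℝ) := by
    have h1 := congrArg (fun z => N179.TL.slope p m (ψ z)) hrel
    simp only [map_pow, map_mul, map_prod, map_natCast] at h1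
    have hp0 : ((p : ℕ) : PadicAlgCl p) ≠ 0 := by exact_mod_cast (Fact.out : p.Prime).ne_zero
    have hψ0 : ∀ i ∈ I, ψ (x i) ≠ 0 := fun i hi => (map_ne_zero ψ).2 (hx0 i hi)
    have hψb : ψ b ≠ 0 := (map_ne_zero ψ).2 hb0
    rw [slope_pow, slope_mul (mul_ne_zero (Finset.prod_ne_zero_iff.2 hψ0)
      (pow_ne_zero _ (pow_ne_zero _ hp0))) hψb, slope_mul (Finset.prod_ne_zero_iff.2 hψ0)
      (pow_ne_zero _ (pow_ne_zero _ hp0)), slope_prod I _ hψ0, slope_qn hm,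
      slope_qn hm] at h1
    have h2 : (M : ℝ) ≠ 0 := by exact_mod_cast hM.ne'
    push_cast at h1
    apply mul_left_cancel₀ h2
    linarith
  -- independence
  have hsumw : (∑ i ∈ I, (w i : ℝ)) + 2 * (e : ℝ) + (wβ : ℝ) = 2 * (w₀ : ℝ) := by
    exact_mod_cast hcomp
  have hsumc : ∑ i ∈ I, c i + cβ = 0 := by
    have h1 : ∑ i ∈ I, N179.TL.slope p m (ψ (x i)) = ∑ i ∈ I, ((w i : ℝ) / 2 + (c i : ℝ)) :=
      Finset.sum_congr rfl fun i hi => (hc i hi).2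
    rw [h1, Finset.sum_add_distrib, ← Finset.sum_div, hsβ] at hsum
    have h2 : (∑ i ∈ I, (c i : ℝ)) + (cβ : ℝ) = 0 := by linarith
    exact_mod_cast h2
  have hsumz : ∑ i ∈ I, (w i : ZMod 2) + (wβ : ZMod 2) = 0 := by
    have h1 := congrArg (fun z : ℤ => (z : ZMod 2)) hcomp
    push_cast at h1
    have h2 : (2 : ZMod 2) = 0 := rfl
    rw [h2, zero_mul, zero_mul, add_zero] at h1
    exact h1
  have hfin := hD I (fun i => ((w i : ZMod 2), c i)) ((wβ : ZMod 2), cβ)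
    (fun i hi => (hc i hi).1) hcβ (by
      rw [Prod.ext_iff]
      refine ⟨?_, ?_⟩
      · rw [Prod.fst_add, Prod.fst_sum]
        exact hsumz
      · rw [Prod.snd_add, Prod.snd_sum]
        exact hsumc) i₀ hi₀
  apply hfin
  have h3 := (hc i₀ hi₀).2
  rw [hψ, hys] at h3
  have h4 : (c' : ℝ) = (c i₀ : ℝ) := by linarith
  have h5 : c' = c i₀ := by exact_mod_cast h4
  rw [h5] at hc'
  exact hc'

theorem slopesIn_one {m : ℕ} {D : Set (ZMod 2 × ℚ)} (hD : (0, 0) ∈ D) :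
    SlopesIn p m D (1 : K) := by
  refine ⟨0, ⟨isAlgebraic_one, ?_⟩, ?_⟩
  · intro z hz
    rw [minpoly.one, map_sub, aeval_X, map_one, sub_eq_zero] at hz
    rw [hz]
    simp
  · intro z hz
    rw [minpoly.one, map_sub, aeval_X, map_one, sub_eq_zero] at hz
    refine ⟨0, by simpa using hD, ?_⟩
    rw [hz, N179.TL.slope]
    simp

theorem ne_zero_of_active {m : ℕ} {D B : Set (ZMod 2 × ℚ)} {x : K}
    (h : SlopesMeet p m D B x) : x ≠ 0 := by
  obtain ⟨w, ⟨-, h1⟩, -⟩ := h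
  rintro rfl
  have h2 := h1 0 (by rw [minpoly.zero, aeval_X])
  rw [norm_zero, zero_pow two_ne_zero] at h2
  have hp0 : (p : ℝ) ≠ 0 := by exact_mod_cast (Fact.out : p.Prime).ne_zero
  exact zpow_ne_zero w (pow_ne_zero m hp0) h2.symm

theorem integral_of_active {m : ℕ} {D B : Set (ZMod 2 × ℚ)} {x : K}
    (h : SlopesMeet p m D B x) : IsIntegral ℚ x := by
  obtain ⟨w, ⟨h0, -⟩, -⟩ := h
  exact h0.isIntegral

end

end Pool.Agent.Helper17.SL
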