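import Pool.Agent.Helper17.SL.GDefs
import Pool.Agent.Helper17.SL.Ar
import Pool.Agent.N876.CG.ModE
import Pool.Agent.W484.CK.Main
import Pool.Agent.W484.CK.Motivic

/-!
# Systems of varieties with independent slopes have no resonances
-/

set_option autoImplicit false

open Finset Polynomial CategoryTheory AlgebraicGeometry
open scoped TensorProduct

namespace Pool.Agent.Helper17.SL.G

open Pool.Agent.H914 Pool.Agent.H914.VarClass Pool.Agent.H914.VarClass.Obj Pool.Agent.W492.BB
  Pool.Agent.W484.CK Pool.Agent.N876.GB3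

section main

variable {κ : Type} [Field κ] [Fintype κ] {𝒱 : VarClass κ} {A : TheoryData.{0, 0, 0} 𝒱 ℚ}
  [IsChow A] {K : Type} [Field K] [IsAlgClosed K] [CharZero K] {H : WeilTheoryData.{0, 0, 0} A K}
  [IsWeil H] {p m : ℕ} [Fact p.Prime] {r : ℕ} {D B : Fin r → Set (ZMod 2 × ℚ)}
  {D₀ : Set (ZMod 2 × ℚ)} {F : ∀ X : 𝒱.Obj, X ⟶ X} {X : Fin r → 𝒱.Obj} {Z : 𝒱.Obj}
  {χ : ℚ[X]}

omit [IsChow A] [IsAlgClosed K] [IsWeil H] in
theorem m_pos (hS : IsSlopeSystem p m D B D₀ H F X Z χ) : 0 < m := by
  rcases Nat.eq_zero_or_pos m with h0 | h0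
  · have h1 := hS.card
    rw [h0, pow_zero] at h1
    have := Fintype.one_lt_card (α := κ)
    omega
  · exact h0

/-- The relative version. -/
theorem cr_slope (hS : IsSlopeSystem p m D B D₀ H F X Z χ) :
    Pool.Agent.N876.CG.Cr H F (Fintype.card κ) X Z
      (fun i => {μ | SlopesMeet p m (D i) (B i) μ}) {ρ | aeval ρ χ = 0} := by
  have hm := m_pos hS
  have hq : ((Fintype.card κ : ℕ) : K) = ((p : ℕ) : K) ^ m := by
    rw [hS.card, Nat.cast_pow]
  exact
    { std := isStandard_bridge hS.standard
      one_lt := Fintype.one_lt_card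
      frob := fun X => isFrobenius_bridge (hS.frobenius X)
      prod := hS.product
      cg := fun i => by
        obtain ⟨T, hT, h1, h2⟩ := hS.type i
        exact ⟨T, hT, h1, h2⟩
      int := fun i μ hμ => integral_of_active hμ
      ne := fun i μ hμ => ne_zero_of_active hμ
      intZ := fun β hβ => (hS.algebraic β hβ).isIntegral
      res := by
        rw [hq]
        refine nores hm hS.independent (fun i μ hμ => hμ) ?_
        rintro _ ⟨β, ρ, hβ, hρ, rfl⟩
        exact hS.slopes β ρ hβ hρ
      res1 := by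
        rw [hq]
        refine nores hm hS.independent (fun i μ hμ => hμ) ?_
        rintro _ rfl
        exact slopesIn_one hS.zero_mem }

end main

end Pool.Agent.Helper17.SL.G
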