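import Pool.Agent.Helper17.SL.Defs
import Pool.Agent.N876.R816.Defs

/-!
# Systems of varieties with independent slopes: definitions
-/

set_option autoImplicit false

open Finset Polynomial CategoryTheory AlgebraicGeometry

namespace Pool.Agent.Helper17.SL.P

open Pool.Agent.H914 Pool.Agent.H914.VarClass Pool.Agent.H914.VarClass.Obj Pool.Agent.W492.BB
  Pool.Agent.W484.CK Pool.Agent.N876.R816

section defs

variable {κ : Type} [Field κ] {𝒱 : VarClass κ} {A : TheoryData.{0, 0, 0} 𝒱 ℚ} {K : Type} [Field K]

/-- The space `V` is generated by the subspace `P` (the classes of algebraic cycles) and a subspace `T`,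
stable under `Φ` (the Frobenius), on which all eigenvalues are Weil numbers, with all
slopes as prescribed by `D` and one slope as prescribed by `B` (`SlopesMeet`). -/
def IsSlopeCohomology [CharZero K] (p m : ℕ) [Fact p.Prime] (D B : Set (ZMod 2 × ℚ)) {V : Type}
    [AddCommGroup V] [Module K V] (P : Submodule K V) (Φ : Module.End K V) : Prop :=
  ∃ (T : Submodule K V) (hT : ∀ t ∈ T, Φ t ∈ T), P ⊔ T = ⊤ ∧
    ∀ μ : K, Module.End.HasEigenvalue (Φ.restrict hT) μ → SlopesMeet p m D B μ

/-- `IsSlopeCohomology` for an endomorphism of an algebra. -/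
def IsSlopeAlgebra [CharZero K] (p m : ℕ) [Fact p.Prime] (D B : Set (ZMod 2 × ℚ)) {V : Type}
    [Ring V] [Algebra K V] (P : Submodule K V) (φ : V →ₐ[K] V) : Prop :=
  IsSlopeCohomology p m D B P (ofHom φ)

/-- The cohomology of `X` is generated by the classes of algebraic cycles and a subspace `T`, stable
under the Frobenius endomorphism `φ`, on which the eigenvalues have all slopes as prescribed by `D`
and one slope as prescribed by `B`. -/
def HasSlopeCohomology [CharZero K] (p m : ℕ) [Fact p.Prime] (D B : Set (ZMod 2 × ℚ))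
    (H : WeilTheoryData.{0, 0, 0} A K) {X : 𝒱.Obj} (φ : X ⟶ X) : Prop :=
  IsSlopeAlgebra p m D B (cycleSpan H X) (H.pull φ)

/-- `φ` has the eigenvalue `β`. -/
def HasEigenvalueOf {V : Type} [Ring V] [Algebra K V] (φ : V →ₐ[K] V) (β : K) : Prop :=
  (ofHom φ).HasEigenvalue β

/-- `F` is the Frobenius endomorphism of the varieties over `κ`, a field with `q = p ^ m` elements; the
cohomology of `X i` is generated by classes of cycles and by a part where the eigenvalues have all
slopes as prescribed by `D i` and one slope as prescribed by `B i`; the numbers `β ρ`, where `β` is an eigenvalue of the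
Frobenius on the cohomology of `Z` and `ρ` a root of `χ`, are Weil numbers with slopes as
prescribed by `D₀`; and the `D i` and `D₀` are independent (`Independent`). -/
structure IsSlopeSystem [Fintype κ] [CharZero K] (p m : ℕ) [Fact p.Prime] {r : ℕ}
    (D B : Fin r → Set (ZMod 2 × ℚ)) (D₀ : Set (ZMod 2 × ℚ)) (H : WeilTheoryData.{0, 0, 0} A K)
    (F : ∀ X : 𝒱.Obj, X ⟶ X) (X : Fin r → 𝒱.Obj) (Z : 𝒱.Obj) (χ : ℚ[X]) : Prop where
  card : Fintype.card κ = p ^ m
  zero_mem : ((0 : ZMod 2), (0 : ℚ)) ∈ D₀
  independent : Independent D B D₀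
  standard : IsStandard H
  frobenius : ∀ X, IsFrobenius A (F X) (Fintype.card κ)
  product : ∀ X Y, F (X.prod Y) = prodMap (F X) (F Y)
  type : ∀ i, HasSlopeCohomology p m (D i) (B i) H (F (X i))
  polarized : ∀ i, IsPolarized H (X i)
  algebraic : ∀ β : K, HasEigenvalueOf (H.pull (F Z)) β → IsAlgebraic ℚ β
  ne_zero : χ.coeff 0 ≠ 0
  slopes : ∀ β ρ : K, HasEigenvalueOf (H.pull (F Z)) β → aeval ρ χ = 0 →
    SlopesIn p m D₀ (β * ρ)

end defs

end Pool.Agent.Helper17.SL.P
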